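import Pool.Agent.Y990.CB.Basic
import Pool.Agent.H592F.Orient

set_option autoImplicit false

open MeasureTheory Set

/-!
CB-DET: deterministic renormalisation step.
-/

namespace Pool.Agent.Y68.CB990

open Pool.Agent.Y990.CB
open Pool.Agent.H592F (Wet safe bad perc_det near)

noncomputable section

variable {d : ℕ}

/-- `x` is a hub at `w` -/
def Hub (M : Mod d) (ω : M.ι → Bool) (k L : ℕ) (w x : Z d) : Prop :=
  x ∈ Bo w k ∧ Am M ω w L x

lemma hub_conn {M : Mod d} {ω : M.ι → Bool} {k L : ℕ} {w x y : Z d} (h : ω ∉ Ta M w k L)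
    (hx : Hub M ω k L w x) (hy : Hub M ω k L w y) : (G M ω univ).Reachable x y := by
  by_contra hc
  apply h
  refine ⟨x, hx.1, y, hy.1, hx.2, hy.2, fun h' => hc ?_⟩
  exact reach_mono (subset_univ _) h'

lemma hub_link {M : Mod d} {ω : M.ι → Bool} {ρ k L N : ℕ} {w u : Z d} {i₀ : Fin d}
    (hu : |u i₀| = N) (hkL : k ≤ L) (hN : k + L < N)
    (h : ω ∈ Lk M (Bo w ρ) (Bo w k) (Bo (w + u) k)) :
    ∃ x y, Hub M ω k L w x ∧ Hub M ω k L (w + u) y ∧ (G M ω univ).Reachable x y := by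
  obtain ⟨x, hx, y, hy, hr⟩ := h
  have hN' : (k : ℤ) + L < N := by exact_mod_cast hN
  have h1 := abs_le.1 (hx i₀)
  have h2 := abs_le.1 (hy i₀)
  simp only [Pi.add_apply] at h2
  have hyn : y ∉ Bo w L := by
    intro hc
    have h3 := abs_le.1 (hc i₀)
    rcases abs_cases (u i₀) with ⟨h4, _⟩ | ⟨h4, _⟩ <;> omega
  have hxn : x ∉ Bo (w + u) L := by
    intro hc
    have h3 := abs_le.1 (hc i₀)
    simp only [Pi.add_apply] at h3
    rcases abs_cases (u i₀) with ⟨h4, _⟩ | ⟨h4, _⟩ <;> omega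
  refine ⟨x, y, ⟨hx, exit_Am (Bo_mono w hkL hx) (Or.inl hyn) hr⟩,
    ⟨hy, exit_Am (Bo_mono _ hkL hy) (Or.inl hxn) hr.symm⟩, reach_mono (subset_univ _) hr⟩

lemma line {M : Mod d} {ω : M.ι → Bool} {ρ k L N K : ℕ} {b u : Z d} {i₀ : Fin d}
    (hu : |u i₀| = N) (hkL : k ≤ L) (hN : k + L < N) (hK : 1 ≤ K)
    (hl : ∀ l < K, ω ∈ Lk M (Bo (b + l • u) ρ) (Bo (b + l • u) k) (Bo (b + l • u + u) k))
    (ht : ∀ l ≤ K, ω ∉ Ta M (b + l • u) k L) :
    (∃ x, Hub M ω k L b x) ∧ (∃ y, Hub M ω k L (b + K • u) y) ∧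
      ∀ x y, Hub M ω k L b x → Hub M ω k L (b + K • u) y → (G M ω univ).Reachable x y := by
  have key : ∀ l ≤ K, (∃ y, Hub M ω k L (b + l • u) y) ∧
      ∀ x y, Hub M ω k L b x → Hub M ω k L (b + l • u) y → (G M ω univ).Reachable x y := by
    intro l
    induction l with
    | zero =>
      intro _
      have h0 := hl 0 (by omega)
      have ht0 := ht 0 (by omega)
      rw [zero_smul, add_zero] at h0 ht0 ⊢
      obtain ⟨x, y, hx, hy, hr⟩ := hub_link hu hkL hN h0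
      exact ⟨⟨x, hx⟩, fun a c ha hc => hub_conn ht0 ha hc⟩
    | succ l ih =>
      intro hlK
      obtain ⟨_, ih2⟩ := ih (by omega)
      obtain ⟨x1, y1, hx1, hy1, hr⟩ := hub_link hu hkL hN (hl l (by omega))
      have e : b + l • u + u = b + (l + 1) • u := by
        rw [add_assoc, succ_nsmul]
      rw [e] at hy1
      refine ⟨⟨y1, hy1⟩, fun a c ha hc => ?_⟩
      exact ((ih2 a x1 ha hx1).trans hr).trans (hub_conn (ht _ hlK) hy1 hc)
  obtain ⟨h1, _⟩ := key 0 (by omega)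
  rw [zero_smul, add_zero] at h1
  exact ⟨h1, (key K le_rfl).1, (key K le_rfl).2⟩

lemma bp_right (v v' : Z d) (K : ℕ) (s : ℤ × ℤ) :
    bp v v' K (s.1 + 1, s.2) = bp v v' K s + K • v := by
  unfold bp
  funext t
  have e : (K • v) t = K * v t := by rw [Pi.smul_apply, nsmul_eq_mul]
  simp only [Pi.add_apply, e]
  simp only [Pi.smul_apply, smul_eq_mul]
  ring

lemma bp_up (v v' : Z d) (K : ℕ) (s : ℤ × ℤ) :
    bp v v' K (s.1, s.2 + 1) = bp v v' K s + K • v' := by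
  unfold bp
  funext t
  have e : (K • v') t = K * v' t := by rw [Pi.smul_apply, nsmul_eq_mul]
  simp only [Pi.add_apply, e]
  simp only [Pi.smul_apply, smul_eq_mul]
  ring

lemma arith {a b N P Q s1 s2 : ℤ} (ha : |a| = N) (hb : |b| ≤ N) (hN1 : 1 ≤ N) (w1 : 0 ≤ s1)
    (w2 : 0 ≤ s2) (hP : P = s1 * a - s2 * b) (hQ : Q = s1 * b + s2 * a) :
    s1 ≤ |P| + |Q| ∧ s2 ≤ |P| + |Q| := by
  have haa : a * a = N * N := by
    rw [← abs_mul_abs_self a, ha]
  have hPQ0 : 0 ≤ |P| + |Q| := by positivity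
  have aP : a * P ≤ N * |P| := by
    calc a * P ≤ |a * P| := le_abs_self _
      _ = |a| * |P| := abs_mul _ _
      _ = N * |P| := by rw [ha]
  have bQ : b * Q ≤ N * |Q| := by
    calc b * Q ≤ |b * Q| := le_abs_self _
      _ = |b| * |Q| := abs_mul _ _
      _ ≤ N * |Q| := mul_le_mul_of_nonneg_right hb (abs_nonneg _)
  have aQ : a * Q ≤ N * |Q| := by
    calc a * Q ≤ |a * Q| := le_abs_self _
      _ = |a| * |Q| := abs_mul _ _
      _ = N * |Q| := by rw [ha]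
  have bP : -(b * P) ≤ N * |P| := by
    calc -(b * P) ≤ |b * P| := neg_le_abs _
      _ = |b| * |P| := abs_mul _ _
      _ ≤ N * |P| := mul_le_mul_of_nonneg_right hb (abs_nonneg _)
  have e1 : s1 * (N * N) + s1 * (b * b) = a * P + b * Q := by rw [← haa, hP, hQ]; ring
  have e2 : s2 * (N * N) + s2 * (b * b) = a * Q - b * P := by rw [← haa, hP, hQ]; ring
  have e3 : 0 ≤ s1 * (b * b) := mul_nonneg w1 (mul_self_nonneg b)
  have e4 : 0 ≤ s2 * (b * b) := mul_nonneg w2 (mul_self_nonneg b)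
  have q1 : N * (s1 * N) ≤ N * (|P| + |Q|) := by linarith
  have q2 : N * (s2 * N) ≤ N * (|P| + |Q|) := by linarith
  have q3 := le_of_mul_le_mul_left q1 (by linarith)
  have q4 := le_of_mul_le_mul_left q2 (by linarith)
  have m1 : s1 * 1 ≤ s1 * N := mul_le_mul_of_nonneg_left hN1 w1
  have m2 : s2 * 1 ≤ s2 * N := mul_le_mul_of_nonneg_left hN1 w2
  constructor <;> linarith

lemma arith2 {y K P : ℤ} {k : ℤ} (hK : 1 ≤ K) (h : |y - K * P| ≤ k) : |P| ≤ |y| + k := by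
  have h2 := abs_sub_abs_le_abs_sub (K * P) y
  rw [abs_sub_comm, abs_mul, abs_of_nonneg (by linarith : (0 : ℤ) ≤ K)] at h2
  have h3 : 1 * |P| ≤ K * |P| := mul_le_mul_of_nonneg_right hK (abs_nonneg _)
  linarith

theorem det : ∀ (d : ℕ) (M : Mod d) (v v' : Z d) (i j : Fin d) (N K ρ k L : ℕ), i ≠ j →
    nm v = N → nm v' = N → |v i| = N → v' i = - v j → v' j = v i → 1 ≤ K → k ≤ L → k + L < N →
    ∀ ω : M.ι → Bool, (∀ t, Pool.Agent.H592F.safe
      (Pool.Agent.H592F.bad (fun s => ω ∈ Bb M v v' K ρ k L s) t) (0, 0)) →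
    ∃ x, ω ∈ Perc M x := by
  intro d M v v' i j N K ρ k L hij hv hv' hvi hvi' hvj' hK hkL hN ω hs
  have hvj : |v' j| = N := by rw [hvj', hvi]
  -- good blocks
  have good : ∀ s : ℤ × ℤ, ω ∉ Bb M v v' K ρ k L s →
      (ω ∉ Ta M (bp v v' K s) k L) ∧ (∃ x, Hub M ω k L (bp v v' K s) x) ∧
      ((∃ y, Hub M ω k L (bp v v' K (s.1 + 1, s.2)) y) ∧
        ∀ x y, Hub M ω k L (bp v v' K s) x → Hub M ω k L (bp v v' K (s.1 + 1, s.2)) y →
          (G M ω univ).Reachable x y) ∧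
      ((∃ y, Hub M ω k L (bp v v' K (s.1, s.2 + 1)) y) ∧
        ∀ x y, Hub M ω k L (bp v v' K s) x → Hub M ω k L (bp v v' K (s.1, s.2 + 1)) y →
          (G M ω univ).Reachable x y) := by
    intro s hb
    have l1 : ∀ l < K, ω ∈ Lk M (Bo (bp v v' K s + l • v) ρ) (Bo (bp v v' K s + l • v) k)
        (Bo (bp v v' K s + l • v + v) k) := by
      intro l hl
      by_contra hc
      exact hb (Or.inl ⟨l, hl, Or.inl hc⟩)
    have l2 : ∀ l < K, ω ∈ Lk M (Bo (bp v v' K s + l • v') ρ) (Bo (bp v v' K s + l • v') k)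
        (Bo (bp v v' K s + l • v' + v') k) := by
      intro l hl
      by_contra hc
      exact hb (Or.inl ⟨l, hl, Or.inr hc⟩)
    have t1 : ∀ l ≤ K, ω ∉ Ta M (bp v v' K s + l • v) k L := fun l hl hc =>
      hb (Or.inr ⟨l, hl, Or.inl hc⟩)
    have t2 : ∀ l ≤ K, ω ∉ Ta M (bp v v' K s + l • v') k L := fun l hl hc =>
      hb (Or.inr ⟨l, hl, Or.inr hc⟩)
    obtain ⟨a1, a2, a3⟩ := line hvi hkL hN hK l1 t1
    obtain ⟨b1, b2, b3⟩ := line hvj hkL hN hK l2 t2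
    have t0 := t1 0 (Nat.zero_le _)
    rw [zero_smul, add_zero] at t0
    rw [bp_right, bp_up]
    exact ⟨t0, a1, ⟨a2, a3⟩, b2, b3⟩
  have h00 : ω ∉ Bb M v v' K ρ k L (0, 0) := hs 0 (0, 0) ⟨by simp, by simp⟩
  obtain ⟨g1, ⟨x0, hx0⟩, -, -⟩ := good (0, 0) h00
  -- wet sites
  have wet : ∀ s : ℤ × ℤ, Wet (fun s => ω ∈ Bb M v v' K ρ k L s) s →
      0 ≤ s.1 ∧ 0 ≤ s.2 ∧ (∃ y, Hub M ω k L (bp v v' K s) y) ∧
      ∀ y, Hub M ω k L (bp v v' K s) y → (G M ω univ).Reachable x0 y := by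
    intro s h
    induction h with
    | zero => exact ⟨le_rfl, le_rfl, ⟨x0, hx0⟩, fun y hy => hub_conn g1 hx0 hy⟩
    | right h1 h2 ih =>
      obtain ⟨i1, i2, ⟨y0, hy0⟩, i4⟩ := ih
      obtain ⟨-, -, ⟨a1, a2⟩, -⟩ := good _ h2
      refine ⟨by simp only; omega, i2, a1, fun y hy => ?_⟩
      exact (i4 y0 hy0).trans (a2 y0 y hy0 hy)
    | up h1 h2 ih =>
      obtain ⟨i1, i2, ⟨y0, hy0⟩, i4⟩ := ih
      obtain ⟨-, -, -, ⟨a1, a2⟩⟩ := good _ h2
      refine ⟨i1, by simp only; omega, a1, fun y hy => ?_⟩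
      exact (i4 y0 hy0).trans (a2 y0 y hy0 hy)
  refine ⟨x0, ?_⟩
  show (cl M ω univ x0).Infinite
  intro hfin
  obtain ⟨D, hD⟩ := (hfin.image (fun y : Z d => |y i| + |y j|)).bddAbove
  obtain ⟨s, hw, hsum⟩ := perc_det _ hs ((2 * (D + 2 * k)).toNat + 1)
  obtain ⟨w1, w2, ⟨y, hy⟩, w4⟩ := wet s hw
  have hyc : |y i| + |y j| ≤ D := hD ⟨y, w4 y hy, rfl⟩
  have hyi := hy.1 i
  have hyj := hy.1 j
  have ei : bp v v' K s i = K * (s.1 * v i - s.2 * v j) := by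
    unfold bp
    simp only [Pi.add_apply, Pi.smul_apply, smul_eq_mul, hvi']
    ring
  have ej : bp v v' K s j = K * (s.1 * v j + s.2 * v i) := by
    unfold bp
    simp only [Pi.add_apply, Pi.smul_apply, smul_eq_mul, hvj']
    ring
  rw [ei] at hyi
  rw [ej] at hyj
  have hbj : |v j| ≤ N := by
    have := abs_le_nm v j
    rwa [hv] at this
  have hN1 : (1 : ℤ) ≤ N := by
    have : 1 ≤ N := by omega
    exact_mod_cast this
  have hK1 : (1 : ℤ) ≤ K := by exact_mod_cast hK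
  obtain ⟨q3, q4⟩ := arith hvi hbj hN1 w1 w2 rfl rfl
  have q5 := arith2 hK1 hyi
  have q6 := arith2 hK1 hyj
  have h7 := Int.self_le_toNat (2 * (D + 2 * k))
  push_cast at hsum
  linarith

end

end Pool.Agent.Y68.CB990
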